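import Pool.Agent.Y958.RM.Rnd
import Pool.Agent.Y958.RM.Any
import Pool.Agent.Y958.RM.Cor
import Pool.Agent.Y958.RM.Lawh
import Pool.Agent.Y454.RM.Lash

/-!
# Hooley's conjecture for almost all values of sums of independent random integers, and up to few elements of any set

Nothing is used besides Mathlib in the statement. The library `Pool.Agent.Y885` is by helper885, the file `Lash` by helper454.
-/

set_option autoImplicit false

namespace Pool.Agent.Results.MP_5d318d_nt.RandomSumModuli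

open Finset

/-- `ψ(x; q, a) = ∑_{n ≤ x, n ≡ a mod q} Λ(n)` for `0 ≤ a < q` -/
noncomputable def psiAP (x : ℝ) (q a : ℕ) : ℝ :=
  ∑ n ∈ (Icc 1 ⌊x⌋₊).filter (fun n => n % q = a), ArithmeticFunction.vonMangoldt n

/-- The variance `G(x,q) = ∑_{a mod q, (a,q)=1} (ψ(x;q,a) - x/φ(q))²`. -/
noncomputable def G (x : ℝ) (q : ℕ) : ℝ :=
  ∑ a ∈ (range q).filter (fun a => Nat.Coprime a q), (psiAP x q a - x / (Nat.totient q : ℝ)) ^ 2

/-- `|G(x,Q) - x log Q| ≤ ε x log Q` for ALL real `x` with `Q ≤ x ≤ Q R`. -/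
def Good (ε R : ℝ) (Q : ℕ) : Prop :=
  ∀ x : ℝ, (Q : ℝ) ≤ x → x ≤ Q * R → |G x Q - x * Real.log Q| ≤ ε * (x * Real.log Q)

/-- The set `J` of scales below `k` is rich: it contains more than three fifths of all the scales, more than one half
of the `m` lowest scales, and a positive proportion of the `m` highest scales (the last two conditions are
void for `m ≤ D log k`). -/
structure Rich (δ : ℝ) (D k : ℕ) (J : Finset ℕ) : Prop where
  lt : ∀ j ∈ J, j < k
  all : (3 / 5 + δ) * k ≤ (J.card : ℝ)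
  low : ∀ m ≤ k, (1 / 2 + δ) * m ≤ ((J.filter fun j => j < m).card : ℝ) + D * Real.log k
  high : ∀ m ≤ k, δ * m ≤ ((J.filter fun j => k - m ≤ j).card : ℝ) + D * Real.log k

open Classical in
/-- The probability of the event `E` if `x 0, ..., x (k - 1)` are independent random integers, where `x j` takes
its values in the finite set `s j`, and the value `x` with the probability `p j x`. -/
noncomputable def Prob (k : ℕ) (s : ℕ → Finset ℤ) (p : ℕ → ℤ → ℝ) (E : (Fin k → ℤ) → Prop) : ℝ :=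
  ∑ x ∈ Fintype.piFinset (fun j : Fin k => s j), if E x then ∏ j : Fin k, p j (x j) else 0

lemma bad_iff (ε : ℝ) (κ k b : ℕ) (hb : 0 < b) (Q : ℤ) :
    Pool.Agent.Y958.RM.BadQ ε κ k b Q ↔ (b : ℤ) ^ k ≤ Q * (k : ℤ) ^ κ ∧ ¬ Good ε ((k : ℝ) ^ κ) Q.toNat := by
  unfold Pool.Agent.Y958.RM.BadQ Good
  apply and_congr_right
  intro h
  have hQ0 : 0 ≤ Q := by
    by_contra hcon
    push Not at hcon
    have e1 : Q * (k : ℤ) ^ κ ≤ 0 := mul_nonpos_of_nonpos_of_nonneg hcon.le (by positivity)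
    have e2 : (0 : ℤ) < (b : ℤ) ^ k := by positivity
    linarith
  have hQ : ((Q.toNat : ℕ) : ℝ) = (Q : ℝ) := by
    have : ((Q.toNat : ℕ) : ℤ) = Q := Int.toNat_of_nonneg hQ0
    exact_mod_cast this
  rw [hQ]
  push Not
  constructor
  · rintro ⟨x, h1, h2, h3⟩
    exact ⟨x, h1, h2, h3⟩
  · rintro ⟨x, h1, h2, h3⟩
    exact ⟨x, h1, h2, h3⟩

open Classical in
/-- **Hooley's conjecture for random moduli.** Let `κ` and `0 < ε ≤ 1` be given.

Let `b ≥ 2`, `B ≥ 1`, `D`, `U`, `η > 0`, `δ > 0` be fixed, let `k` be large, and let `J` be an arbitrary rich set of scales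
below `k`. (1) Let `x 0, ..., x (k - 1)` be arbitrary independent random integers with `|x j| ≤ B b ^ j` such that, for
all `j` in `J`, no interval of the length `b ^ j / B` contains `x j` with a probability larger than `1 - η` (nothing is
assumed for the other `j`: these `x j` may be constants). Let `c` be an arbitrary integer with `|c| ≤ B b ^ k`. Then, with
a probability of at least `1 - 1 / k ^ U`, the modulus `Q = c + x 0 + ... + x (k - 1)` is smaller than `b ^ k / k ^ κ`, or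
it satisfies `|G(x,Q) - x log Q| ≤ ε x log Q` for ALL real `x` with `Q ≤ x ≤ Q k ^ κ`. (2) Let `A 0, ..., A (k - 1)` be
arbitrary nonempty sets of digits in base `b`, such that `A j` has at least two elements if `j` is in `J` (the other
digits may be prescribed). Then the same holds for all the moduli `Q < b ^ k` whose digit at the place `j` belongs to `A j`
for all `j < k`, with at most `(#A 0 ⋯ #A (k - 1)) / k ^ U` exceptions.

(3) For every `l ≥ 2` there is a constant `C = C(l, κ)` such that for `0 < ε ≤ 1` and every sufficiently large integer `N`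
the following holds. Let `A` be an arbitrary set of integers which contains an element of every interval `[x, l x]`, `x ≥ 1`
(`C` and `N₀` do not depend on `A`). Then `N` is the sum of a modulus `Q ≥ N / 2` and of at most `C (log log N) ^ 2` distinct
elements of `A`, where `|G(x,Q) - x log Q| ≤ ε x log Q` for ALL real `x` with `Q ≤ x ≤ Q log ^ κ N`. -/
theorem result (κ : ℕ) :
    (∀ (b B D U : ℕ), 2 ≤ b → 1 ≤ B → ∀ η δ ε : ℝ, 0 < η → 0 < δ → 0 < ε → ε ≤ 1 → ∃ k₀ : ℕ, ∀ k : ℕ, k₀ ≤ k →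
      ∀ J : Finset ℕ, Rich δ D k J →
      (∀ (s : ℕ → Finset ℤ) (p : ℕ → ℤ → ℝ),
        (∀ j < k, (∀ x ∈ s j, 0 ≤ p j x ∧ |x| ≤ (B : ℤ) * (b : ℤ) ^ j) ∧ ∑ x ∈ s j, p j x = 1) →
        (∀ j ∈ J, ∀ y : ℤ, ∑ x ∈ (s j).filter (fun x => y ≤ x ∧ (B : ℤ) * (x - y) ≤ (b : ℤ) ^ j), p j x ≤ 1 - η) →
        ∀ c : ℤ, |c| ≤ (B : ℤ) * (b : ℤ) ^ k →
          Prob k s p (fun x => (b : ℤ) ^ k ≤ (c + ∑ j, x j) * (k : ℤ) ^ κ ∧ ¬ Good ε ((k : ℝ) ^ κ) (c + ∑ j, x j).toNat) ≤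
            1 / (k : ℝ) ^ U) ∧
      (∀ A : ℕ → Finset ℕ, (∀ j < k, (A j).Nonempty ∧ ∀ a ∈ A j, a < b) → (∀ j ∈ J, 2 ≤ (A j).card) →
        (((range (b ^ k)).filter fun Q : ℕ =>
            (∀ j < k, Q / b ^ j % b ∈ A j) ∧ b ^ k ≤ Q * k ^ κ ∧ ¬ Good ε ((k : ℝ) ^ κ) Q).card : ℝ) ≤
          (∏ j ∈ range k, ((A j).card : ℝ)) / (k : ℝ) ^ U)) ∧
    (∀ l : ℕ, 2 ≤ l → ∃ C : ℝ, ∀ ε : ℝ, 0 < ε → ε ≤ 1 → ∃ N₀ : ℕ, ∀ A : Set ℕ,
      (∀ x : ℕ, 1 ≤ x → ∃ a ∈ A, x ≤ a ∧ a ≤ l * x) → ∀ N : ℕ, N₀ ≤ N →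
        ∃ S : Finset ℕ, (∀ a ∈ S, a ∈ A) ∧ (S.card : ℝ) ≤ C * Real.log (Real.log N) ^ 2 ∧
          ∃ Q : ℕ, Q + ∑ a ∈ S, a = N ∧ N ≤ 2 * Q ∧ Good ε (Real.log N ^ κ) Q) := by
  have hLAWH := Pool.Agent.Y958.RM.lawh
  have hLASH := Pool.Agent.Y454.RM.t_LASH
  have hCOR := Pool.Agent.Y958.RM.cor
  refine ⟨?_, ?_⟩
  · intro b B D U hb hB η δ ε hη hδ hε hε1
    obtain ⟨k₁, h1⟩ := Pool.Agent.Y958.RM.rnd hLAWH hCOR b B D κ U hb hB η δ ε hη hδ hε hε1
    obtain ⟨k₂, h2⟩ := Pool.Agent.Y958.RM.rnd hLAWH hCOR b b D κ U hb (by omega) (1 / 2) δ ε (by norm_num) hδ hε hε1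
    refine ⟨k₁ + k₂, fun k hk J hJ => ?_⟩
    have hJ' : Pool.Agent.Y885.Rich δ D k J := ⟨hJ.lt, hJ.low, hJ.high, hJ.all⟩
    refine ⟨fun s p hs hp c hc => ?_, fun A hA hAJ => ?_⟩
    · refine le_trans (le_of_eq ?_) (h1 k (by omega) J s p c hJ' hs (fun j hj y => by rw [← sum_filter]; exact hp j hj y) hc)
      unfold Prob
      apply sum_congr rfl
      intro x _
      have e1 := bad_iff ε κ k b (by omega) (c + ∑ j : Fin k, x j)
      by_cases h : Pool.Agent.Y958.RM.BadQ ε κ k b (c + ∑ j : Fin k, x j)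
      · rw [if_pos h, if_pos (e1.1 h)]
      · rw [if_neg h, if_neg (fun h' => h (e1.2 h'))]
    · have h3 := Pool.Agent.Y958.RM.rand_digits' b hb U k (Pool.Agent.Y958.RM.BadQ ε κ k b) J
        (fun s p c hs hp hc => h2 k (by omega) J s p c hJ' hs hp hc) A hA hAJ
      refine le_trans (le_of_eq ?_) h3
      congr 2
      ext Q
      rw [mem_filter, mem_filter]
      have e1 := bad_iff ε κ k b (by omega) (Q : ℤ)
      rw [Int.toNat_natCast] at e1
      have e2 : (b : ℤ) ^ k ≤ (Q : ℤ) * (k : ℤ) ^ κ ↔ b ^ k ≤ Q * k ^ κ := by exact_mod_cast Iff.rfl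
      rw [e2] at e1
      constructor
      · rintro ⟨g1, g2, g3⟩
        exact ⟨g1, g2, e1.2 g3⟩
      · rintro ⟨g1, g2, g3⟩
        exact ⟨g1, g2, e1.1 g3⟩
  · intro l hl
    obtain ⟨C, hC⟩ := Pool.Agent.Y958.RM.any hLASH hCOR l κ hl
    refine ⟨C, fun ε hε hε1 => ?_⟩
    obtain ⟨N₀, h0⟩ := hC ε hε hε1
    refine ⟨N₀, fun A hA N hN => ?_⟩
    obtain ⟨S, s1, s2, s3, s4⟩ := h0 A hA N hN
    exact ⟨S, s1, s2, N - ∑ a ∈ S, a, by omega, by omega, s4⟩

end Pool.Agent.Results.MP_5d318d_nt.RandomSumModuli
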