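import Pool.Agent.Y879.AP.Var2
import Pool.Agent.Y879.GL.Pattern

set_option autoImplicit false

/-!
The variance of almost primes in the reduced residue classes modulo EVERY large `Q`: Hooley's asymptotic formula
for `T₀ Q ≤ X ≤ C φ(Q) log Q`, and all binomial moments for all `X ≥ T₀ Q`.
-/

namespace Pool.Agent.Results.MP_5d318d_nt.VarianceEveryModulus

open Finset Filter
open Pool.Agent.Y879.AP Pool.Agent.W123.RP Pool.Agent.H373R2.T7 Pool.Agent.W123.RU
open Pool.Agent.TH464.PW Pool.Agent.TH464.PO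

/-- `n` has no prime factor `p ≤ Q ^ (1 / r)` -/
def Rough (Q r n : ℕ) : Prop := ∀ p : ℕ, p.Prime → (p : ℝ) ≤ (Q : ℝ) ^ (1 / (r : ℝ)) → ¬ p ∣ n

open Classical in
/-- the number of the almost primes in `(b, b + T Q]` congruent to `b` modulo `Q` -/
noncomputable def Num (Q r T b : ℕ) : ℕ := ((Icc 1 T).filter (fun h => Rough Q r (b + Q * h))).card

/-- the product of `1 - 1 / p` over the primes `p ≤ Q ^ (1 / r)` which do not divide `Q` -/
noncomputable def V (Q r : ℕ) : ℝ :=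
  ∏ p ∈ ((Icc 1 ⌊(Q : ℝ) ^ (1 / (r : ℝ))⌋₊).filter Nat.Prime).filter (fun p => ¬ p ∣ Q), (1 - 1 / (p : ℝ))

/-- the weight of an almost prime, the reciprocal of the density of the almost primes -/
noncomputable def w (Q r : ℕ) : ℝ := Q / (Nat.totient Q * V Q r)

/-- the variance, for `X = T Q`: the sum of `(w Num - X / φ(Q)) ^ 2` over the `b` in `(Z, Z + Y]` prime to `Q`
(over all reduced residue classes if `Y = Q`) -/
noncomputable def G (Q r T Z Y : ℕ) : ℝ :=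
  ∑ b ∈ (Ioc Z (Z + Y)).filter (fun b => b.Coprime Q),
    (w Q r * (Num Q r T b : ℝ) - ((T * Q : ℕ) : ℝ) / Nat.totient Q) ^ 2

lemma V_eq (Q r : ℕ) : V Q r = Vq (Qn Ql Q) ⌊(Q : ℝ) ^ (1 / (r : ℝ))⌋₊ := by
  rw [Vn_eq]
  rfl

lemma num_eq (Q r T b : ℕ) : Num Q r T b = Wr Q ⌊(Q : ℝ) ^ (1 / (r : ℝ))⌋₊ T b := by
  classical
  unfold Num Wr
  apply card_iff
  intro h _
  unfold Rough
  constructor
  · intro h1 p hp
    obtain ⟨hp1, hp2⟩ := mem_pz.1 hp
    exact h1 p hp2 ((Nat.le_floor_iff (by positivity)).1 hp1)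
  · intro h1 p hp hpr
    exact h1 p (mem_pz.2 ⟨Nat.le_floor hpr, hp⟩)

/-- **The variance of almost primes in progressions.** For all `θ, ε > 0`, `x₀ ≥ 0` and `k₀` there are `r₀` and
`T₀` such that for every `r ≥ r₀` and EVERY large `Q`: (1) the integers `0 < n ≤ Q ^ 2` without prime factor
`p ≤ Q ^ (1 / r)` have at most `2 r` prime factors; (2) the weight is `w = (1 + η) e ^ γ (log Q) / r` with
`|η| ≤ ε`; (3) for all `Z`, all `Y ≥ Q ^ θ` and all `T ≥ T₀` with `T V ≤ x₀` the variance, for `X = T Q`, is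
`(1 + η) (Y / Q) w X` with `|η| ≤ ε`; for `Y = Q` it is `(1 + η) w X`; (4) for all such `Z, Y` and all
`T ≥ T₀`, without upper bound, and all `1 ≤ k ≤ k₀`, the sum of the binomial coefficients `Num choose k` over
the `b` in `(Z, Z + Y]` prime to `Q` is `(1 + η) Y (φ(Q) / Q) (T V) ^ k / k!` with `|η| ≤ ε`. -/
theorem result (θ x₀ ε : ℝ) (k₀ : ℕ) (hθ : 0 < θ) (hx₀ : 0 ≤ x₀) (hε : 0 < ε) :
    ∃ r₀ T₀ : ℕ, ∀ r : ℕ, r₀ ≤ r → ∃ Q₀ : ℕ, ∀ Q : ℕ, Q₀ ≤ Q →
      (∀ n : ℕ, 0 < n → n ≤ Q ^ 2 → Rough Q r n → n.primeFactorsList.length ≤ 2 * r) ∧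
      |w Q r * (r * Real.exp (-Real.eulerMascheroniConstant)) - Real.log Q| ≤ ε * Real.log Q ∧
      (∀ Z Y T : ℕ, (Q : ℝ) ^ θ ≤ Y → T₀ ≤ T → T * V Q r ≤ x₀ →
        |G Q r T Z Y - (Y : ℝ) / Q * (w Q r * ((T * Q : ℕ) : ℝ))| ≤
          ε * ((Y : ℝ) / Q * (w Q r * ((T * Q : ℕ) : ℝ)))) ∧
      ∀ Z Y T k : ℕ, (Q : ℝ) ^ θ ≤ Y → T₀ ≤ T → 1 ≤ k → k ≤ k₀ →
        |∑ b ∈ (Ioc Z (Z + Y)).filter (fun b => b.Coprime Q), ((Num Q r T b).choose k : ℝ) -
            Y * ((Nat.totient Q : ℝ) / Q) * ((T * V Q r) ^ k / k.factorial)| ≤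
          ε * (Y * ((Nat.totient Q : ℝ) / Q) * ((T * V Q r) ^ k / k.factorial)) := by
  classical
  choose r1 T1 hr1 h1 using fun k => bin_mom k θ ε hθ hε
  obtain ⟨r2, T2, hr2, h2⟩ := var_law θ x₀ ε hθ hx₀ hε
  refine ⟨r2 + ∑ k ∈ range k₀, r1 k, T2 + ∑ k ∈ range k₀, T1 k, ?_⟩
  intro r hr
  have hr0 : 2 ≤ r := hr2.trans ((Nat.le_add_right _ _).trans hr)
  have hrr : (2 : ℝ) ≤ r := by exact_mod_cast hr0
  obtain ⟨c, hc⟩ : ∃ c, c = (r : ℝ) * Real.exp (-Real.eulerMascheroniConstant) := ⟨_, rfl⟩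
  have hc0 : 0 < c := by
    rw [hc]
    have := Real.exp_pos (-Real.eulerMascheroniConstant)
    positivity
  have hle : ∀ k ∈ range k₀, r1 k ≤ r ∧ T1 k ≤ ∑ k ∈ range k₀, T1 k := by
    intro k hk
    have e1 : r1 k ≤ ∑ k ∈ range k₀, r1 k := Finset.single_le_sum (fun _ _ => Nat.zero_le _) hk
    exact ⟨by omega, Finset.single_le_sum (fun _ _ => Nat.zero_le _) hk⟩
  have hall := (eventually_all_finset (range k₀)).2 (fun k hk => h1 k r (hle k hk).1)
  obtain ⟨Q0, hQ0⟩ := eventually_atTop.1 (((h2 r ((Nat.le_add_right _ _).trans hr)).and hall).and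
    (mean_asym r hr0 (min (ε / (1 + ε)) (1 / 2) * c) (by positivity)))
  refine ⟨max Q0 2, ?_⟩
  intro Q hQ
  obtain ⟨⟨g1, g2⟩, g3⟩ := hQ0 Q ((le_max_left _ _).trans hQ)
  have hQ2 : 2 ≤ Q := (le_max_right _ _).trans hQ
  have hQ1 : (1 : ℝ) < Q := by exact_mod_cast (by omega : 1 < Q)
  have hQp : (0 : ℝ) < Q := by linarith
  have hlQ : 0 < Real.log Q := Real.log_pos hQ1
  have hφ : (0 : ℝ) < Nat.totient Q := by exact_mod_cast Nat.totient_pos.2 (by omega : 0 < Q)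
  rw [← V_eq, ← hc] at g3
  have hV0 : 0 < V Q r := by
    rw [V_eq]
    exact Vq_pos (Qn Ql Q) (adm_Qn Ql adm_Ql Q) _
  rw [← hc]
  refine ⟨?_, ?_, ?_, ?_⟩
  · intro n hn hnQ hro
    refine Pool.Agent.Y879.GL.few_of_rough ((Q : ℝ) ^ (1 / (r : ℝ)))
      (Real.one_lt_rpow hQ1 (by positivity)) _ (2 * r) (by omega) ?_ ?_
    · have hpow : ((Q : ℝ) ^ (1 / (r : ℝ))) ^ r = Q := by
        rw [← Real.rpow_natCast, ← Real.rpow_mul (by linarith), one_div, inv_mul_cancel₀ (by linarith),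
          Real.rpow_one]
      rw [mul_comm 2 r, pow_mul, hpow]
      exact_mod_cast hnQ
    · intro p hp hpd
      by_contra hcon
      rw [not_lt] at hcon
      exact hro p hp hcon hpd
  · -- the weight
    obtain ⟨m, hm⟩ : ∃ m, m = V Q r * ((Nat.totient Q : ℝ) / Q) * Real.log Q := ⟨_, rfl⟩
    rw [← hm] at g3
    have hm0 : 0 < m := by rw [hm]; positivity
    have e1 : w Q r = Real.log Q / m := by
      rw [hm]
      unfold w
      field_simp
    have hh1 : min (ε / (1 + ε)) (1 / 2) * c ≤ 1 / 2 * c :=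
      mul_le_mul_of_nonneg_right (min_le_right _ _) hc0.le
    have hh2 : min (ε / (1 + ε)) (1 / 2) * c ≤ ε / (1 + ε) * c :=
      mul_le_mul_of_nonneg_right (min_le_left _ _) hc0.le
    have hk : |c - m| ≤ ε * m := by
      rw [abs_sub_comm]
      have h5 : |m - c| ≤ ε / (1 + ε) * c := g3.trans hh2
      have h6 : c ≤ (1 + ε) * m := by
        have h7 := (abs_le.1 h5).1
        have h8 : ε / (1 + ε) * c = c - c / (1 + ε) := by field_simp; ring
        have h9 : c / (1 + ε) ≤ m := by linarith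
        rw [div_le_iff₀ (by linarith)] at h9
        linarith
      calc |m - c| ≤ ε / (1 + ε) * c := h5
        _ ≤ ε / (1 + ε) * ((1 + ε) * m) := mul_le_mul_of_nonneg_left h6 (by positivity)
        _ = ε * m := by field_simp
    have e2 : Real.log Q / m * c - Real.log Q = Real.log Q / m * (c - m) := by field_simp
    rw [e1, e2, abs_mul, abs_of_pos (by positivity : 0 < Real.log Q / m)]
    calc Real.log Q / m * |c - m| ≤ Real.log Q / m * (ε * m) :=
          mul_le_mul_of_nonneg_left hk (by positivity)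
      _ = _ := by field_simp
  · -- the variance
    intro Z Y T hY hT hTV
    rw [V_eq] at hTV
    have g5 := g1 Z Y hY T ((Nat.le_add_right _ _).trans hT) hTV
    rw [← V_eq] at g5
    have e1 : G Q r T Z Y = w Q r ^ 2 * ∑ n ∈ (Ioc Z (Z + Y)).filter (fun n => n.Coprime Q),
        ((Wr Q ⌊(Q : ℝ) ^ (1 / (r : ℝ))⌋₊ T n : ℝ) - T * V Q r) ^ 2 := by
      unfold G
      rw [Finset.mul_sum]
      apply Finset.sum_congr rfl
      intro b _
      rw [num_eq]
      have e2 : (((T * Q : ℕ) : ℝ)) / Nat.totient Q = w Q r * (T * V Q r) := by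
        unfold w
        push_cast
        field_simp
      rw [e2]
      ring
    have e3 : (Y : ℝ) / Q * (w Q r * ((T * Q : ℕ) : ℝ)) =
        w Q r ^ 2 * (Y * ((Nat.totient Q : ℝ) / Q) * (T * V Q r)) := by
      unfold w
      push_cast
      field_simp
    rw [e1, e3, ← mul_sub, abs_mul, abs_of_nonneg (sq_nonneg (w Q r))]
    calc _ ≤ w Q r ^ 2 * (ε * (Y * ((Nat.totient Q : ℝ) / Q) * (T * V Q r))) :=
          mul_le_mul_of_nonneg_left g5 (sq_nonneg _)
      _ = _ := by ring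
  · -- the binomial moments
    intro Z Y T k hY hT hk1 hk
    obtain ⟨j, rfl⟩ : ∃ j, k = j + 1 := ⟨k - 1, by omega⟩
    have hj : j ∈ range k₀ := mem_range.2 (by omega)
    have g5 := g2 j hj Z Y hY T (by have := (hle j hj).2; omega)
    rw [← V_eq] at g5
    have e1 : ∑ b ∈ (Ioc Z (Z + Y)).filter (fun b => b.Coprime Q), ((Num Q r T b).choose (j + 1) : ℝ) =
        ∑ n ∈ (Ioc Z (Z + Y)).filter (fun n => n.Coprime Q),
          ((Wr Q ⌊(Q : ℝ) ^ (1 / (r : ℝ))⌋₊ T n).choose (j + 1) : ℝ) := by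
      apply Finset.sum_congr rfl
      intro b _
      rw [num_eq]
    rw [e1]
    exact g5

end Pool.Agent.Results.MP_5d318d_nt.VarianceEveryModulus
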